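import Mathlib
import Pool.Agent.V1199.WStar

open Set Filter Topology

namespace Pool.Agent.Results.MP_b3c6e2_an.IenvUnion

variable {𝕜 : Type*} [RCLike 𝕜] {X : Type*} [NormedAddCommGroup X] [NormedSpace 𝕜 X]

/-- The weak-star closure of a subset of the dual. -/
def wcl (A : Set (StrongDual 𝕜 X)) : Set (StrongDual 𝕜 X) :=
  {ξ | StrongDual.toWeakDual ξ ∈ closure (StrongDual.toWeakDual '' A)}

/-- The (I)-envelope. -/
def Ienv (A : Set (StrongDual 𝕜 X)) : Set (StrongDual 𝕜 X) :=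
  ⋂ (D : ℕ → Set (StrongDual 𝕜 X)) (_ : A = ⋃ n, D n),
    closure (convexHull ℝ (⋃ n, wcl (convexHull ℝ (D n))))

/-- Points outside the (I)-envelope are strongly separated by a sequence. -/
theorem seq_of_notMem {A : Set (StrongDual 𝕜 X)} {η : StrongDual 𝕜 X} (hη : η ∉ Ienv A) :
    ∃ (δ : ℝ) (x : ℕ → X), 0 < δ ∧ (∀ n, ‖x n‖ ≤ 1) ∧
      ∀ ξ ∈ A, ∀ᶠ n in atTop, RCLike.re (ξ (x n)) ≤ RCLike.re (η (x n)) - δ := by
  unfold Ienv at hη
  simp only [mem_iInter, not_forall] at hη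
  obtain ⟨D, hD, hη⟩ := hη
  rw [Metric.mem_closure_iff] at hη
  push Not at hη
  obtain ⟨δ₀, hδ₀, hdist⟩ := hη
  -- bounded pieces
  let P : ℕ → Set (StrongDual 𝕜 X) := fun j =>
    D (Nat.unpair j).1 ∩ Metric.closedBall 0 (Nat.unpair j).2
  let L : ℕ → Set (WeakDual 𝕜 X) := fun j =>
    closure (StrongDual.toWeakDual '' convexHull ℝ (P j))
  have hPsub : ∀ j, convexHull ℝ (P j) ⊆
      Metric.closedBall (0 : StrongDual 𝕜 X) (Nat.unpair j).2 := fun j =>
    convexHull_min inter_subset_right (convex_closedBall _ _)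
  have hLcomp : ∀ j, IsCompact (L j) := by
    intro j
    refine V1199.wstar_compact_of_subset_ball (r := (Nat.unpair j).2) ?_
    rintro _ ⟨ξ, hξ, rfl⟩
    exact hPsub j hξ
  have hLconv : ∀ j, Convex ℝ (L j) := fun j =>
    V1199.wstar_convex_closure (V1199.wstar_convex_image (convex_convexHull ℝ _))
  let K : ℕ → Set (WeakDual 𝕜 X) := fun n => convexHull ℝ (⋃ i < n, L i)
  have hKcomp : ∀ n, IsCompact (K n) := fun n => V1199.wstar_isCompact_hull L hLcomp hLconv n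
  have hKconv : ∀ n, Convex ℝ (K n) := fun n => convex_convexHull ℝ _
  -- the convex set in the statement
  set C : Set (StrongDual 𝕜 X) := convexHull ℝ (⋃ n, wcl (convexHull ℝ (D n))) with hC
  have hLC : ∀ j, ∀ ξ ∈ L j, WeakDual.toStrongDual ξ ∈ C := by
    intro j ξ hξ
    apply subset_convexHull
    rw [mem_iUnion]
    refine ⟨(Nat.unpair j).1, ?_⟩
    show StrongDual.toWeakDual (WeakDual.toStrongDual ξ) ∈ _
    refine closure_mono ?_ hξ
    exact image_mono (convexHull_mono inter_subset_left)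
  have hKC : ∀ n, ∀ ξ ∈ K n, WeakDual.toStrongDual ξ ∈ C := by
    intro n
    have hconv : Convex ℝ {ξ : WeakDual 𝕜 X | WeakDual.toStrongDual ξ ∈ C} :=
      V1199.convex_toStrongDual_preimage (convex_convexHull ℝ _)
    have : K n ⊆ {ξ : WeakDual 𝕜 X | WeakDual.toStrongDual ξ ∈ C} := by
      refine convexHull_min ?_ hconv
      intro ξ hξ
      simp only [mem_iUnion] at hξ
      obtain ⟨j, _, hj⟩ := hξ
      exact hLC j ξ hj
    exact this
  have hex : ∀ n, ∃ x : X, ‖x‖ ≤ 1 ∧ ∀ ξ ∈ K n, RCLike.re (ξ x) ≤ RCLike.re (η x) - δ₀ / 2 := by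
    intro n
    refine V1199.wstar_separation (hKconv n) (hKcomp n).isClosed η (by positivity) ?_
    intro ξ hξ
    have := hdist _ (hKC n ξ hξ)
    rw [dist_eq_norm] at this
    linarith
  choose x hx1 hx2 using hex
  refine ⟨δ₀ / 2, x, by positivity, hx1, fun ξ hξ => ?_⟩
  rw [hD, mem_iUnion] at hξ
  obtain ⟨i, hi⟩ := hξ
  obtain ⟨m, hm⟩ := exists_nat_ge ‖ξ‖
  filter_upwards [eventually_gt_atTop (Nat.pair i m)] with n hn
  refine hx2 n (StrongDual.toWeakDual ξ) ?_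
  apply subset_convexHull
  simp only [mem_iUnion]
  refine ⟨Nat.pair i m, hn, subset_closure ⟨ξ, subset_convexHull ℝ _ ?_, rfl⟩⟩
  show ξ ∈ D (Nat.unpair (Nat.pair i m)).1 ∩ Metric.closedBall 0 (Nat.unpair (Nat.pair i m)).2
  rw [Nat.unpair_pair]
  exact ⟨hi, by rw [mem_closedBall_zero_iff]; exact hm⟩

/-- Conversely, strong separation by a sequence excludes a point from the (I)-envelope. -/
theorem notMem_of_seq {A : Set (StrongDual 𝕜 X)} {η : StrongDual 𝕜 X} {δ : ℝ} {x : ℕ → X}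
    (hδ : 0 < δ) (hx : ∀ n, ‖x n‖ ≤ 1)
    (h : ∀ ξ ∈ A, ∀ᶠ n in atTop, RCLike.re (ξ (x n)) ≤ RCLike.re (η (x n)) - δ) :
    η ∉ Ienv A := by
  intro hη
  unfold Ienv at hη
  simp only [mem_iInter] at hη
  let D : ℕ → Set (StrongDual 𝕜 X) := fun m =>
    {ξ | ξ ∈ A ∧ ∀ n ≥ m, RCLike.re (ξ (x n)) ≤ RCLike.re (η (x n)) - δ}
  have hD : A = ⋃ n, D n := by
    ext ξ
    rw [mem_iUnion]
    constructor
    · intro hξ
      obtain ⟨m, hm⟩ := eventually_atTop.mp (h ξ hξ)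
      exact ⟨m, hξ, hm⟩
    · rintro ⟨m, hm⟩
      exact hm.1
  have h1 := hη D hD
  let P : Set (StrongDual 𝕜 X) :=
    {ζ | ∃ m, ∀ n ≥ m, RCLike.re (ζ (x n)) ≤ RCLike.re (η (x n)) - δ}
  have hre : ∀ (ζ ζ' : StrongDual 𝕜 X) (s t : ℝ) (n : ℕ),
      RCLike.re ((s • ζ + t • ζ') (x n)) = s * RCLike.re (ζ (x n)) + t * RCLike.re (ζ' (x n)) := by
    intro ζ ζ' s t n
    have : (s • ζ + t • ζ') (x n) = s • ζ (x n) + t • ζ' (x n) := rfl
    rw [this, map_add, RCLike.smul_re, RCLike.smul_re]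
  have hP : Convex ℝ P := by
    rintro ζ ⟨m, hm⟩ ζ' ⟨m', hm'⟩ s t hs ht hst
    refine ⟨max m m', fun n hn => ?_⟩
    rw [hre]
    have e1 := hm n (le_of_max_le_left hn)
    have e2 := hm' n (le_of_max_le_right hn)
    have e3 : RCLike.re (η (x n)) - δ =
        s * (RCLike.re (η (x n)) - δ) + t * (RCLike.re (η (x n)) - δ) := by
      rw [← add_mul, hst, one_mul]
    rw [e3]
    exact add_le_add (mul_le_mul_of_nonneg_left e1 hs) (mul_le_mul_of_nonneg_left e2 ht)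
  have hsub : convexHull ℝ (⋃ n, wcl (convexHull ℝ (D n))) ⊆ P := by
    refine convexHull_min ?_ hP
    intro ζ hζ
    rw [mem_iUnion] at hζ
    obtain ⟨m, hm⟩ := hζ
    refine ⟨m, fun n hn => ?_⟩
    have hclosed : IsClosed {f : WeakDual 𝕜 X | RCLike.re (f (x n)) ≤ RCLike.re (η (x n)) - δ} :=
      isClosed_le (RCLike.continuous_re.comp (WeakDual.eval_continuous (x n))) continuous_const
    have hsub' : StrongDual.toWeakDual '' convexHull ℝ (D m) ⊆
        {f : WeakDual 𝕜 X | RCLike.re (f (x n)) ≤ RCLike.re (η (x n)) - δ} := by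
      rintro _ ⟨ξ, hξ, rfl⟩
      have hconv : Convex ℝ {ξ : StrongDual 𝕜 X |
          RCLike.re (ξ (x n)) ≤ RCLike.re (η (x n)) - δ} := by
        intro ζ hζ ζ' hζ' s t hs ht hst
        show RCLike.re ((s • ζ + t • ζ') (x n)) ≤ _
        rw [hre]
        have e3 : RCLike.re (η (x n)) - δ =
            s * (RCLike.re (η (x n)) - δ) + t * (RCLike.re (η (x n)) - δ) := by
          rw [← add_mul, hst, one_mul]
        rw [e3]
        exact add_le_add (mul_le_mul_of_nonneg_left hζ hs) (mul_le_mul_of_nonneg_left hζ' ht)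
      exact convexHull_min (fun ξ hξ => hξ.2 n hn) hconv hξ
    exact closure_minimal hsub' hclosed hm
  obtain ⟨ζ, hζ, hd⟩ := Metric.mem_closure_iff.mp h1 δ hδ
  obtain ⟨m, hm⟩ := hsub hζ
  have e1 := hm m le_rfl
  rw [dist_eq_norm] at hd
  have e2 : ‖(η - ζ) (x m)‖ ≤ ‖η - ζ‖ := by
    refine ((η - ζ).le_opNorm (x m)).trans ?_
    nlinarith [norm_nonneg (η - ζ), hx m]
  have e3 := (RCLike.re_le_norm ((η - ζ) (x m))).trans e2
  have e4 : RCLike.re ((η - ζ) (x m)) = RCLike.re (η (x m)) - RCLike.re (ζ (x m)) := by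
    rw [← map_sub]; rfl
  linarith

/-- Stabilisation of countably many monotone properties of infinite sets of integers. -/
theorem stabilise (Q : Set ℕ → ℕ → Prop)
    (hQ : ∀ D D' : Set ℕ, ∀ k, (D' \ D).Finite → Q D k → Q D' k) :
    ∃ D : Set ℕ, D.Infinite ∧ ∀ D' ⊆ D, D'.Infinite → ∀ k, Q D' k → Q D k := by
  have hstep : ∀ (D : {D : Set ℕ // D.Infinite}) (k : ℕ), ∃ E : {D : Set ℕ // D.Infinite},
      E.1 ⊆ D.1 ∧ ∀ D' ⊆ D.1, D'.Infinite → Q D' k → Q E.1 k := by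
    intro D k
    by_cases h : ∃ D' ⊆ D.1, D'.Infinite ∧ Q D' k
    · obtain ⟨D', h1, h2, h3⟩ := h
      exact ⟨⟨D', h2⟩, h1, fun _ _ _ _ => h3⟩
    · push Not at h
      exact ⟨D, Subset.rfl, fun D' h1 h2 h3 => absurd h3 (h D' h1 h2)⟩
  choose next hnext1 hnext2 using hstep
  let Ds : ℕ → {D : Set ℕ // D.Infinite} := fun n =>
    Nat.rec ⟨univ, infinite_univ⟩ (fun k D => next D k) n
  have hsucc : ∀ k, Ds (k + 1) = next (Ds k) k := fun k => rfl
  have hanti : ∀ i j, i ≤ j → (Ds j).1 ⊆ (Ds i).1 := by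
    intro i j hij
    induction hij with
    | refl => exact Subset.rfl
    | step _ ih => exact (hnext1 _ _).trans ih
  obtain ⟨φ, hφ, hφD⟩ := Filter.extraction_forall_of_frequently
    (P := fun n k => k ∈ (Ds n).1) (fun n => Nat.frequently_atTop_iff_infinite.mpr (Ds n).2)
  have hdiff : ∀ k, (range φ \ (Ds k).1).Finite := by
    intro k
    refine ((Finset.range k).finite_toSet.image φ).subset ?_
    rintro _ ⟨⟨i, rfl⟩, hi⟩
    refine ⟨i, ?_, rfl⟩
    by_contra hcon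
    simp only [Finset.coe_range, mem_Iio, not_lt] at hcon
    exact hi (hanti k i hcon (hφD i))
  refine ⟨range φ, infinite_range_of_injective hφ.injective, fun D' hD' hinf k hk => ?_⟩
  have h1 : (D' \ (Ds k).1).Finite := (hdiff k).subset (sdiff_subset_sdiff_left hD')
  have h2 : (D' ∩ (Ds k).1).Infinite := by
    have h3 := hinf.sdiff h1
    rwa [sdiff_sdiff_right_self] at h3
  have h3 : Q (D' ∩ (Ds k).1) k :=
    hQ D' _ k ((finite_empty).subset (by
      rintro n ⟨⟨hn, _⟩, hn'⟩; exact absurd hn hn')) hk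
  have h4 : Q (Ds (k + 1)).1 k := by
    rw [hsucc]
    exact hnext2 (Ds k) k _ inter_subset_right h2 h3
  exact hQ _ _ k (hdiff (k + 1)) h4

/-- Limits along ultrafilters of bounded sequences. -/
theorem ultra_lim (U : Ultrafilter ℕ) {u : ℕ → ℝ} {M : ℝ} (h : ∀ n, |u n| ≤ M) :
    ∃ l, Tendsto u U (𝓝 l) := by
  have hK : IsCompact (Icc (-M) M) := isCompact_Icc
  have h1 : (U.map u : Filter ℝ) ≤ 𝓟 (Icc (-M) M) := by
    rw [le_principal_iff]
    exact Filter.mem_map.mpr (Filter.univ_mem' (fun n => abs_le.mp (h n)))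
  obtain ⟨l, _, hl⟩ := hK.ultrafilter_le_nhds (U.map u) h1
  exact ⟨l, hl⟩

/-- The combinatorial core. -/
theorem core {V : Type*} [AddCommGroup V] [Module ℝ V] {A B : Set V} (hAB : Convex ℝ (A ∪ B))
    (u v : V → ℕ → ℝ) (hu : ∀ ξ ζ : V, ∀ s t : ℝ, s + t = 1 → ∀ n,
      u (s • ξ + t • ζ) n = s * u ξ n + t * u ζ n)
    (hv : ∀ ξ ζ : V, ∀ s t : ℝ, s + t = 1 → ∀ n, v (s • ξ + t • ζ) n = s * v ξ n + t * v ζ n)
    (hub : ∀ ξ, ∃ M, ∀ n, |u ξ n| ≤ M) (hvb : ∀ ξ, ∃ M, ∀ n, |v ξ n| ≤ M) {δ : ℝ}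
    (hA : ∀ ξ ∈ A, ∀ᶠ n in atTop, u ξ n ≤ -δ) (hB : ∀ ξ ∈ B, ∀ᶠ n in atTop, v ξ n ≤ -δ) :
    ∃ (b : ℝ) (D : Set ℕ), 0 ≤ b ∧ b ≤ 1 ∧ D.Infinite ∧ ∀ ξ ∈ A ∪ B, ∀ ε : ℝ, 0 < ε →
      {n | n ∈ D ∧ -δ + ε < b * u ξ n + (1 - b) * v ξ n}.Finite := by
  let Good : Set ℕ → ℝ → Prop := fun D c => ∀ ξ ∈ B, ∀ ε : ℝ, 0 < ε →
    {n | n ∈ D ∧ -δ + ε < c * u ξ n + (1 - c) * v ξ n}.Finite
  obtain ⟨rat, hrat⟩ := exists_surjective_nat ℚ
  obtain ⟨D, hDinf, hD⟩ := stabilise (fun D k => Good D (rat k)) (by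
    intro D D' k hfin hgood ξ hξ ε hε
    refine ((hgood ξ hξ ε hε).union hfin).subset ?_
    rintro n ⟨hn1, hn2⟩
    by_cases hn : n ∈ D
    · exact Or.inl ⟨hn, hn2⟩
    · exact Or.inr ⟨hn1, hn⟩)
  have hstable : ∀ D' ⊆ D, D'.Infinite → ∀ q : ℚ, Good D' q → Good D q := by
    intro D' h1 h2 q hq
    obtain ⟨k, rfl⟩ := hrat q
    exact hD D' h1 h2 k hq
  have hfin_of_ev : ∀ (f : ℕ → ℝ) (c : ℝ), (∀ᶠ n in atTop, f n ≤ c) →
      ∀ (D : Set ℕ) (ε : ℝ), 0 < ε → {n | n ∈ D ∧ c + ε < f n}.Finite := by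
    intro f c h D ε hε
    obtain ⟨N, hN⟩ := eventually_atTop.mp h
    refine (finite_Iio N).subset ?_
    rintro n ⟨_, hn⟩
    by_contra hcon
    simp only [mem_Iio, not_lt] at hcon
    linarith [hN n hcon]
  have hgood0 : Good D 0 := by
    intro ξ hξ ε hε
    have := hfin_of_ev (v ξ) (-δ) (hB ξ hξ) D ε hε
    simpa using this
  let S : Set ℝ := {c | ∃ q : ℚ, c = q ∧ 0 ≤ c ∧ c ≤ 1 ∧ Good D c}
  have hS0 : (0 : ℝ) ∈ S := ⟨0, by simp, le_rfl, zero_le_one, hgood0⟩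
  have hSbdd : BddAbove S := ⟨1, by rintro c ⟨_, _, _, h, _⟩; exact h⟩
  set b : ℝ := sSup S with hb
  have hb0 : 0 ≤ b := le_csSup hSbdd hS0
  have hb1 : b ≤ 1 := csSup_le ⟨0, hS0⟩ (by rintro c ⟨_, _, _, h, _⟩; exact h)
  refine ⟨b, D, hb0, hb1, hDinf, ?_⟩
  rintro ξ (hξ | hξ) ε hε
  · -- `ξ ∈ A`
    by_contra hinf
    have hD1 : {n | n ∈ D ∧ -δ + ε < b * u ξ n + (1 - b) * v ξ n}.Infinite := hinf
    set D1 : Set ℕ := {n | n ∈ D ∧ -δ + ε < b * u ξ n + (1 - b) * v ξ n} with hD1def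
    have hb1' : b < 1 := by
      refine lt_of_le_of_ne hb1 (fun h => ?_)
      have := hfin_of_ev (u ξ) (-δ) (hA ξ hξ) D ε hε
      apply hD1
      rw [hD1def, h]
      simpa using this
    obtain ⟨Mu, hMu⟩ := hub ξ
    obtain ⟨Mv, hMv⟩ := hvb ξ
    have hMu0 : 0 ≤ Mu := (abs_nonneg _).trans (hMu 0)
    have hMv0 : 0 ≤ Mv := (abs_nonneg _).trans (hMv 0)
    have hr : b < min 1 (b + ε / (2 * (Mu + Mv + 1))) := lt_min hb1' (by
      have : 0 < ε / (2 * (Mu + Mv + 1)) := by positivity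
      linarith)
    obtain ⟨c, hc1, hc2⟩ := exists_rat_btwn hr
    have hc3 : (c : ℝ) < 1 := lt_of_lt_of_le hc2 (min_le_left _ _)
    have hc4 : (c : ℝ) < b + ε / (2 * (Mu + Mv + 1)) := lt_of_lt_of_le hc2 (min_le_right _ _)
    have hc5 : ((c : ℝ) - b) * (Mu + Mv) ≤ ε / 2 := by
      have h1 : (c : ℝ) - b ≤ ε / (2 * (Mu + Mv + 1)) := by linarith
      calc ((c : ℝ) - b) * (Mu + Mv) ≤ ε / (2 * (Mu + Mv + 1)) * (Mu + Mv + 1) := by
            apply mul_le_mul h1 (by linarith) (by linarith) (by positivity)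
        _ = ε / 2 := by field_simp
    have hng : ¬ Good D c := by
      intro hg
      have : (c : ℝ) ∈ S := ⟨c, rfl, by linarith, hc3.le, hg⟩
      have := le_csSup hSbdd this
      linarith
    have hng1 : ¬ Good D1 c := fun hg => hng (hstable D1 (fun n hn => hn.1) hD1 c hg)
    simp only [Good, not_forall] at hng1
    obtain ⟨ζ, hζ, ε2, hε2, hinf2⟩ := hng1
    have hD2 : {n | n ∈ D1 ∧ -δ + ε2 < c * u ζ n + (1 - c) * v ζ n}.Infinite := hinf2
    set D2 : Set ℕ := {n | n ∈ D1 ∧ -δ + ε2 < c * u ζ n + (1 - c) * v ζ n} with hD2def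
    -- a free ultrafilter on `D2`
    have hne : (atTop ⊓ 𝓟 D2 : Filter ℕ).NeBot := by
      rw [inf_principal_neBot_iff]
      intro T hT
      have h1 := (Nat.frequently_atTop_iff_infinite.mpr hD2).and_eventually hT
      obtain ⟨n, hn1, hn2⟩ := h1.exists
      exact ⟨n, hn2, hn1⟩
    let W : Ultrafilter ℕ := Ultrafilter.of (atTop ⊓ 𝓟 D2)
    have hW : (W : Filter ℕ) ≤ atTop ⊓ 𝓟 D2 := Ultrafilter.of_le _
    have hWtop : (W : Filter ℕ) ≤ atTop := hW.trans inf_le_left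
    have hWD : D2 ∈ (W : Filter ℕ) := hW.trans inf_le_right (mem_principal_self D2)
    obtain ⟨Mu', hMu'⟩ := hub ζ
    obtain ⟨Mv', hMv'⟩ := hvb ζ
    obtain ⟨s1, hs1⟩ := ultra_lim W hMu
    obtain ⟨t1, ht1⟩ := ultra_lim W hMv
    obtain ⟨s2, hs2⟩ := ultra_lim W hMu'
    obtain ⟨t2, ht2⟩ := ultra_lim W hMv'
    have hs1le : s1 ≤ -δ := le_of_tendsto hs1 ((hA ξ hξ).filter_mono hWtop)
    have ht2le : t2 ≤ -δ := le_of_tendsto ht2 ((hB ζ hζ).filter_mono hWtop)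
    -- both points lie strictly above the line
    have hp1 : -δ + ε / 2 ≤ c * s1 + (1 - c) * t1 := by
      have h1 : Tendsto (fun n => (c : ℝ) * u ξ n + (1 - c) * v ξ n) W
          (𝓝 (c * s1 + (1 - c) * t1)) := (hs1.const_mul _).add (ht1.const_mul _)
      refine ge_of_tendsto h1 ?_
      filter_upwards [hWD] with n hn
      have h2 : -δ + ε < b * u ξ n + (1 - b) * v ξ n := hn.1.2
      have h3 : (c : ℝ) * u ξ n + (1 - c) * v ξ n =
          (b * u ξ n + (1 - b) * v ξ n) + (c - b) * (u ξ n - v ξ n) := by ring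
      have h4 : |u ξ n - v ξ n| ≤ Mu + Mv := (abs_sub _ _).trans (add_le_add (hMu n) (hMv n))
      have h5 : -(Mu + Mv) ≤ u ξ n - v ξ n := (abs_le.mp h4).1
      have h6 : 0 ≤ (c : ℝ) - b := by linarith
      have h7 := mul_le_mul_of_nonneg_left h5 h6
      rw [h3]
      linarith
    have hp2 : -δ + ε2 ≤ c * s2 + (1 - c) * t2 := by
      have h1 : Tendsto (fun n => (c : ℝ) * u ζ n + (1 - c) * v ζ n) W
          (𝓝 (c * s2 + (1 - c) * t2)) := (hs2.const_mul _).add (ht2.const_mul _)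
      refine ge_of_tendsto h1 ?_
      filter_upwards [hWD] with n hn
      exact hn.2.le
    -- connectedness of the segment
    have hseg : ∀ θ ∈ Icc (0 : ℝ) 1, (1 - θ) * s1 + θ * s2 ≤ -δ ∨ (1 - θ) * t1 + θ * t2 ≤ -δ := by
      intro θ hθ
      have hmem : (1 - θ) • ξ + θ • ζ ∈ A ∪ B :=
        hAB (Or.inl hξ) (Or.inr hζ) (by linarith [hθ.2]) hθ.1 (by ring)
      rcases hmem with h | h
      · left
        have h1 : Tendsto (fun n => u ((1 - θ) • ξ + θ • ζ) n) W (𝓝 ((1 - θ) * s1 + θ * s2)) := by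
          refine ((hs1.const_mul (1 - θ)).add (hs2.const_mul θ)).congr (fun n => ?_)
          rw [hu _ _ _ _ (by ring)]
        exact le_of_tendsto h1 ((hA _ h).filter_mono hWtop)
      · right
        have h1 : Tendsto (fun n => v ((1 - θ) • ξ + θ • ζ) n) W (𝓝 ((1 - θ) * t1 + θ * t2)) := by
          refine ((ht1.const_mul (1 - θ)).add (ht2.const_mul θ)).congr (fun n => ?_)
          rw [hv _ _ _ _ (by ring)]
        exact le_of_tendsto h1 ((hB _ h).filter_mono hWtop)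
    have hconn := isPreconnected_closed_iff.mp (isPreconnected_Icc (a := (0 : ℝ)) (b := 1))
      {θ : ℝ | (1 - θ) * s1 + θ * s2 ≤ -δ} {θ : ℝ | (1 - θ) * t1 + θ * t2 ≤ -δ}
      (isClosed_le (by fun_prop) continuous_const) (isClosed_le (by fun_prop) continuous_const)
      (fun θ hθ => hseg θ hθ)
      ⟨0, ⟨le_rfl, zero_le_one⟩, by
        show (1 - 0) * s1 + 0 * s2 ≤ -δ
        linarith⟩
      ⟨1, ⟨zero_le_one, le_rfl⟩, by
        show (1 - 1) * t1 + 1 * t2 ≤ -δ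
        linarith⟩
    obtain ⟨θ, hθ, hθ1, hθ2⟩ := hconn
    have hθ1' : (1 - θ) * s1 + θ * s2 ≤ -δ := hθ1
    have hθ2' : (1 - θ) * t1 + θ * t2 ≤ -δ := hθ2
    have hc0 : 0 ≤ (c : ℝ) := by linarith
    have e1 := mul_le_mul_of_nonneg_left hθ1' hc0
    have e2 := mul_le_mul_of_nonneg_left hθ2' (show 0 ≤ 1 - (c : ℝ) by linarith)
    have e3 := mul_le_mul_of_nonneg_left hp1 (show 0 ≤ 1 - θ by linarith [hθ.2])
    have e4 := mul_le_mul_of_nonneg_left hp2 hθ.1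
    have e5 : c * ((1 - θ) * s1 + θ * s2) + (1 - c) * ((1 - θ) * t1 + θ * t2) =
        (1 - θ) * (c * s1 + (1 - c) * t1) + θ * (c * s2 + (1 - c) * t2) := by ring
    have hpos : 0 < (1 - θ) * (ε / 2) + θ * ε2 := by
      rcases hθ.1.eq_or_lt with h | h
      · rw [← h]; linarith
      · have h7 : 0 < θ * ε2 := mul_pos h hε2
        have h8 : 0 ≤ (1 - θ) * (ε / 2) := mul_nonneg (by linarith [hθ.2]) (by linarith)
        linarith
    nlinarith
  · -- `ξ ∈ B`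
    obtain ⟨Mu, hMu⟩ := hub ξ
    obtain ⟨Mv, hMv⟩ := hvb ξ
    have hMu0 : 0 ≤ Mu := (abs_nonneg _).trans (hMu 0)
    have hMv0 : 0 ≤ Mv := (abs_nonneg _).trans (hMv 0)
    obtain ⟨c, hcS, hc⟩ := exists_lt_of_lt_csSup ⟨0, hS0⟩
      (show b - ε / (2 * (Mu + Mv + 1)) < b by
        have : 0 < ε / (2 * (Mu + Mv + 1)) := by positivity
        linarith)
    obtain ⟨q, hcq, hc0, hc1, hgood⟩ := hcS
    have hcb : c ≤ b := le_csSup hSbdd ⟨q, hcq, hc0, hc1, hgood⟩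
    refine (hgood ξ hξ (ε / 2) (by positivity)).subset ?_
    rintro n ⟨hn1, hn2⟩
    refine ⟨hn1, ?_⟩
    have h3 : b * u ξ n + (1 - b) * v ξ n =
        (c * u ξ n + (1 - c) * v ξ n) + (b - c) * (u ξ n - v ξ n) := by ring
    have h4 : |u ξ n - v ξ n| ≤ Mu + Mv := (abs_sub _ _).trans (add_le_add (hMu n) (hMv n))
    have h5 : u ξ n - v ξ n ≤ Mu + Mv := (abs_le.mp h4).2
    have h6 : (b - c) * (u ξ n - v ξ n) ≤ ε / 2 := by
      calc (b - c) * (u ξ n - v ξ n) ≤ (b - c) * (Mu + Mv) :=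
            mul_le_mul_of_nonneg_left h5 (by linarith)
        _ ≤ ε / (2 * (Mu + Mv + 1)) * (Mu + Mv + 1) :=
            mul_le_mul (by linarith) (by linarith) (by linarith) (by positivity)
        _ = ε / 2 := by field_simp
    rw [h3] at hn2
    linarith

/-- The (I)-envelope of a convex union is the union of the (I)-envelopes. -/
theorem result (𝕜 : Type*) [RCLike 𝕜] (X : Type*) [NormedAddCommGroup X] [NormedSpace 𝕜 X]
    [CompleteSpace X] (A B : Set (StrongDual 𝕜 X)) (hAB : Convex ℝ (A ∪ B)) :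
    Ienv (A ∪ B) = Ienv A ∪ Ienv B := by
  apply Subset.antisymm
  · intro η hη
    by_contra hcon
    rw [mem_union, not_or] at hcon
    obtain ⟨δ1, x, hδ1, hx, hxA⟩ := seq_of_notMem hcon.1
    obtain ⟨δ2, y, hδ2, hy, hyB⟩ := seq_of_notMem hcon.2
    set δ : ℝ := min δ1 δ2 with hδ
    have hδ0 : 0 < δ := lt_min hδ1 hδ2
    have hbdd : ∀ (z : ℕ → X), (∀ n, ‖z n‖ ≤ 1) → ∀ ξ : StrongDual 𝕜 X, ∃ M : ℝ, ∀ n,
        |RCLike.re ((ξ - η) (z n))| ≤ M := by
      intro z hz ξ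
      refine ⟨‖ξ - η‖, fun n => (RCLike.abs_re_le_norm _).trans ?_⟩
      refine ((ξ - η).le_opNorm (z n)).trans ?_
      nlinarith [norm_nonneg (ξ - η), hz n]
    have haff : ∀ (z : ℕ → X) (ξ ζ : StrongDual 𝕜 X) (s t : ℝ), s + t = 1 → ∀ n,
        RCLike.re ((s • ξ + t • ζ - η) (z n)) =
          s * RCLike.re ((ξ - η) (z n)) + t * RCLike.re ((ζ - η) (z n)) := by
      intro z ξ ζ s t hst n
      have e1 : (s • ξ + t • ζ - η) (z n) = s • ξ (z n) + t • ζ (z n) - η (z n) := rfl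
      have e2 : (ξ - η) (z n) = ξ (z n) - η (z n) := rfl
      have e3 : (ζ - η) (z n) = ζ (z n) - η (z n) := rfl
      rw [e1, e2, e3, map_sub, map_add, RCLike.smul_re, RCLike.smul_re, map_sub, map_sub]
      have : RCLike.re (η (z n)) = (s + t) * RCLike.re (η (z n)) := by rw [hst, one_mul]
      linarith
    have hsub : ∀ (ξ : StrongDual 𝕜 X) (z : X), RCLike.re ((ξ - η) z) =
        RCLike.re (ξ z) - RCLike.re (η z) := by
      intro ξ z
      rw [← map_sub]; rfl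
    obtain ⟨b, D, hb0, hb1, hDinf, hD⟩ := core hAB
      (fun ξ n => RCLike.re ((ξ - η) (x n))) (fun ξ n => RCLike.re ((ξ - η) (y n)))
      (haff x) (haff y) (hbdd x hx) (hbdd y hy) (δ := δ)
      (by
        intro ξ hξ
        filter_upwards [hxA ξ hξ] with n hn
        rw [hsub]
        have := min_le_left δ1 δ2
        linarith)
      (by
        intro ξ hξ
        filter_upwards [hyB ξ hξ] with n hn
        rw [hsub]
        have := min_le_right δ1 δ2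
        linarith)
    obtain ⟨φ, hφ, hφD⟩ := Filter.extraction_of_frequently_atTop
      (Nat.frequently_atTop_iff_infinite.mpr hDinf)
    refine notMem_of_seq (x := fun n => (b : 𝕜) • x (φ n) + ((1 - b : ℝ) : 𝕜) • y (φ n))
      (half_pos hδ0) ?_ ?_ hη
    · intro n
      refine (norm_add_le _ _).trans ?_
      rw [norm_smul, norm_smul, RCLike.norm_ofReal, RCLike.norm_ofReal, abs_of_nonneg hb0,
        abs_of_nonneg (by linarith)]
      nlinarith [hx (φ n), hy (φ n)]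
    · intro ξ hξ
      have h1 := hD ξ hξ (δ / 2) (half_pos hδ0)
      obtain ⟨N, hN⟩ := h1.bddAbove
      filter_upwards [eventually_gt_atTop N] with n hn
      have h2 : ¬ (-δ + δ / 2 < b * RCLike.re ((ξ - η) (x (φ n))) +
          (1 - b) * RCLike.re ((ξ - η) (y (φ n)))) := by
        intro hlt
        have := hN (show φ n ∈ {n | n ∈ D ∧ -δ + δ / 2 < b * RCLike.re ((ξ - η) (x n)) +
          (1 - b) * RCLike.re ((ξ - η) (y n))} from ⟨hφD n, hlt⟩)
        have := hφ.id_le n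
        simp only [id_eq] at this
        omega
      push Not at h2
      have h3 : ∀ ζ : StrongDual 𝕜 X, RCLike.re (ζ ((b : 𝕜) • x (φ n) +
          ((1 - b : ℝ) : 𝕜) • y (φ n))) = b * RCLike.re (ζ (x (φ n))) +
          (1 - b) * RCLike.re (ζ (y (φ n))) := by
        intro ζ
        rw [map_add, map_smul, map_smul, smul_eq_mul, smul_eq_mul, map_add, RCLike.re_ofReal_mul,
          RCLike.re_ofReal_mul]
      rw [h3, h3]
      rw [hsub, hsub] at h2
      linarith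
  · rintro η (hη | hη)
    · by_contra hcon
      obtain ⟨δ, x, hδ, hx, hxA⟩ := seq_of_notMem hcon
      exact notMem_of_seq hδ hx (fun ξ hξ => hxA ξ (Or.inl hξ)) hη
    · by_contra hcon
      obtain ⟨δ, x, hδ, hx, hxA⟩ := seq_of_notMem hcon
      exact notMem_of_seq hδ hx (fun ξ hξ => hxA ξ (Or.inr hξ)) hη

end Pool.Agent.Results.MP_b3c6e2_an.IenvUnion
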